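import Pool.Agent.Helper91.CX.Stm2
import Pool.Agent.Helper23.CX.Alg

/-! Package Q2 (Cramer's rule with parameters). -/

set_option autoImplicit false

open Metric Set Topology

namespace Pool.Agent.Helper86.CX

open Pool.Agent.Helper91.CX

/-- two continuous functions which agree on a dense subset agree -/
theorem eq_of_dense {α β : Type*} [TopologicalSpace α] [TopologicalSpace β] [T2Space β]
    {f g : α → β} {W Z : Set α}
    (hW : IsOpen W) (hf : ContinuousOn f W) (hg : ContinuousOn g W) (hZ : W ⊆ closure Z)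
    (h : ∀ y ∈ W, y ∈ Z → f y = g y) : ∀ y ∈ W, f y = g y := by
  intro y hy
  by_contra hne
  obtain ⟨u, v, hu, hv, hyu, hyv, huv⟩ := t2_separation hne
  have h1 : IsOpen (W ∩ f ⁻¹' u) := hf.isOpen_inter_preimage hW hu
  have h2 : IsOpen (W ∩ g ⁻¹' v) := hg.isOpen_inter_preimage hW hv
  obtain ⟨z, ⟨⟨hz1, hz2⟩, ⟨_, hz3⟩⟩, hz4⟩ :=
    mem_closure_iff.1 (hZ hy) ((W ∩ f ⁻¹' u) ∩ (W ∩ g ⁻¹' v)) (h1.inter h2)
      ⟨⟨hy, hyu⟩, ⟨hy, hyv⟩⟩
  have h3 : f z = g z := h z hz1 hz4
  exact Set.disjoint_left.1 huv hz2 (by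
    show f z ∈ v
    rw [h3]
    exact hz3)

/-- the entries of the inverse matrix are holomorphic -/
theorem dinv {n r : ℕ} {W : Set (Fin n → ℂ)} {C : (Fin n → ℂ) → Matrix (Fin r) (Fin r) ℂ}
    (h : ∀ i j, DifferentiableOn ℂ (fun y => C y i j) W) (h0 : ∀ y ∈ W, (C y).det ≠ 0) (i j : Fin r) :
    DifferentiableOn ℂ (fun y => (C y)⁻¹ i j) W := by
  have h1 : ∀ y ∈ W, (C y)⁻¹ i j = ((C y).det)⁻¹ * (C y).adjugate i j := by
    intro y hy
    rw [Matrix.inv_def, Ring.inverse_eq_inv', Matrix.smul_apply, smul_eq_mul]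
  have h2 : DifferentiableOn ℂ (fun y => (C y).adjugate i j) W := by
    simp only [Matrix.adjugate_apply]
    refine ddet fun a b => ?_
    by_cases hab : a = j
    · subst hab
      simp only [Matrix.updateRow_self]
      exact differentiableOn_const _
    · simp only [Matrix.updateRow_ne hab]
      exact h a b
  exact (((ddet h).inv h0).mul h2).congr h1

theorem cramer : S_Cramer := by
  intro n m k W Z y₀ V u hW hy₀ hV hu hi hWZ hZW hsp
  obtain ⟨J, hJ⟩ := Pool.Agent.Helper23.CX.exists_minor (V y₀) hi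
  set A : (Fin n → ℂ) → Matrix (Fin k) (Fin k) ℂ := fun y => Matrix.of fun i j => V y i (J j)
    with hA
  have hAd : ∀ i j, DifferentiableOn ℂ (fun y => A y i j) W := fun i j => hV i (J j)
  have hdet := ddet hAd
  have hu' : ∀ l, DifferentiableOn ℂ (fun y => u y l) W := fun l => by
    intro y hy
    exact (differentiableWithinAt_pi.1 (hu y hy)) l
  refine ⟨W ∩ {y | (A y).det ≠ 0}, fun y => Matrix.vecMul (fun j => u y (J j)) (A y)⁻¹, ?_,
    ⟨hy₀, hJ⟩, inter_subset_left, ?_, ?_, ?_⟩
  · exact hdet.continuousOn.isOpen_inter_preimage hW isOpen_ne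
  · intro i
    have h1 : ∀ a, DifferentiableOn ℂ (fun y => u y (J a)) (W ∩ {y | (A y).det ≠ 0}) :=
      fun a => (hu' (J a)).mono inter_subset_left
    have h2 : ∀ a, DifferentiableOn ℂ (fun y => (A y)⁻¹ a i) (W ∩ {y | (A y).det ≠ 0}) :=
      fun a => dinv (fun i j => (hAd i j).mono inter_subset_left) (fun y hy => hy.2) a i
    simp only [Matrix.vecMul, dotProduct]
    exact DifferentiableOn.fun_sum fun a _ => (h1 a).mul (h2 a)
  · rintro y ⟨hy, hdy⟩
    have h1 : LinearIndependent ℂ (A y).row := by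
      rw [Matrix.linearIndependent_rows_iff_isUnit, Matrix.isUnit_iff_isUnit_det]
      exact isUnit_iff_ne_zero.2 hdy
    exact LinearIndependent.of_comp (LinearMap.funLeft ℂ ℂ J) h1
  · set W' : Set (Fin n → ℂ) := W ∩ {y | (A y).det ≠ 0} with hW'
    have hW'o : IsOpen W' := hdet.continuousOn.isOpen_inter_preimage hW isOpen_ne
    have hcd : ∀ i, DifferentiableOn ℂ
        (fun y => Matrix.vecMul (fun j => u y (J j)) (A y)⁻¹ i) W' := by
      intro i
      have h1 : ∀ a, DifferentiableOn ℂ (fun y => u y (J a)) W' :=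
        fun a => (hu' (J a)).mono inter_subset_left
      have h2 : ∀ a, DifferentiableOn ℂ (fun y => (A y)⁻¹ a i) W' :=
        fun a => dinv (fun i j => (hAd i j).mono inter_subset_left) (fun y hy => hy.2) a i
      simp only [Matrix.vecMul, dotProduct]
      exact DifferentiableOn.fun_sum fun a _ => (h1 a).mul (h2 a)
    intro y hy
    funext l
    revert y
    refine eq_of_dense (Z := Z) hW'o ((hu' l).mono inter_subset_left).continuousOn ?_ (fun y hy => hWZ hy.1) ?_
    · simp only [Finset.sum_apply, Pi.smul_apply, smul_eq_mul]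
      refine DifferentiableOn.continuousOn (𝕜 := ℂ) ?_
      exact DifferentiableOn.fun_sum fun a _ => (hcd a).mul ((hV a l).mono inter_subset_left)
    · intro y hy hyZ
      obtain ⟨c', hc'⟩ := (Submodule.mem_span_range_iff_exists_fun ℂ).1 (hsp y hyZ)
      have h1 : (fun j => u y (J j)) = Matrix.vecMul c' (A y) := by
        funext j
        rw [← hc']
        simp [Matrix.vecMul, dotProduct, hA, Finset.sum_apply]
      have h2 : Matrix.vecMul (fun j => u y (J j)) (A y)⁻¹ = c' := by
        rw [h1, Matrix.vecMul_vecMul, Matrix.mul_nonsing_inv _ (isUnit_iff_ne_zero.2 hy.2),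
          Matrix.vecMul_one]
      simp only [h2, hc']

end Pool.Agent.Helper86.CX
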