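import Pool.Agent.Helper86.CX.SecExt

/-! Package Q6 (saturation of a distribution given on a dense open set). -/

set_option autoImplicit false
set_option linter.unusedSectionVars false

open Metric Set Topology
open scoped Manifold ContDiff

namespace Pool.Agent.Helper86.CX

open Pool.Agent.Helper91.CX

/-- membership in the span of holomorphic vectors is a closed condition -/
theorem mem_of_dense {n m k : ℕ} {W Z : Set (Fin n → ℂ)} {V : (Fin n → ℂ) → Fin k → Fin m → ℂ}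
    {u : (Fin n → ℂ) → Fin m → ℂ} (hW : IsOpen W) (hV : Hol W V) (hu : DifferentiableOn ℂ u W)
    {y₀ : Fin n → ℂ} (hy₀ : y₀ ∈ W) (hi : LinearIndependent ℂ (V y₀)) (hZ : W ⊆ closure Z)
    (h : ∀ y ∈ W, y ∈ Z → u y ∈ Submodule.span ℂ (range (V y))) :
    u y₀ ∈ Submodule.span ℂ (range (V y₀)) := by
  have h1 : W ⊆ closure (W ∩ Z) := fun y hy => hW.inter_closure ⟨hy, hZ hy⟩
  obtain ⟨W', c, _, hy₀', _, _, _, hs⟩ := cramer n m k W (W ∩ Z) y₀ V u hW hy₀ hV hu hi h1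
    inter_subset_left (fun y hy => h y hy.1 hy.2)
  rw [hs y₀ hy₀']
  exact Submodule.sum_mem _ fun i _ => Submodule.smul_mem _ _ (Submodule.subset_span ⟨i, rfl⟩)

theorem span_eq_of_le {m k : ℕ} {A B : Fin k → Fin m → ℂ} (hA : LinearIndependent ℂ A)
    (hB : LinearIndependent ℂ B) (h : ∀ i, A i ∈ Submodule.span ℂ (range B)) :
    Submodule.span ℂ (range A) = Submodule.span ℂ (range B) := by
  apply Submodule.eq_of_le_of_finrank_eq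
  · rw [Submodule.span_le]
    rintro _ ⟨i, rfl⟩
    exact h i
  · rw [finrank_span_eq_card hA, finrank_span_eq_card hB]

/-- two families of holomorphic vectors with the same span on a dense set -/
theorem span_of_dense {n m k : ℕ} {W Z : Set (Fin n → ℂ)}
    {V V₂ : (Fin n → ℂ) → Fin k → Fin m → ℂ} (hW : IsOpen W) (hV : Hol W V) (hV₂ : Hol W V₂)
    {y₀ : Fin n → ℂ} (hy₀ : y₀ ∈ W) (hi : LinearIndependent ℂ (V y₀))
    (hi₂ : LinearIndependent ℂ (V₂ y₀)) (hZ : W ⊆ closure Z)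
    (h : ∀ y ∈ W, y ∈ Z → Submodule.span ℂ (range (V₂ y)) = Submodule.span ℂ (range (V y))) :
    Submodule.span ℂ (range (V₂ y₀)) = Submodule.span ℂ (range (V y₀)) := by
  refine span_eq_of_le hi₂ hi fun i => ?_
  refine mem_of_dense (u := fun y => V₂ y i) hW hV (differentiableOn_pi.2 fun j => hV₂ i j)
    hy₀ hi hZ fun y hy hyZ => ?_
  rw [← h y hy hyZ]
  exact Submodule.subset_span ⟨i, rfl⟩

section sat

variable {n : ℕ} {X : Type} [TopologicalSpace X] [ChartedSpace (Fin n → ℂ) X]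
  {M G : Set X} {𝓖 : Ch n X → X → Submodule ℂ (Fin n → ℂ)} {k : ℕ}

/-- holomorphic independent vectors which span `𝓖` on `G` -/
structure Lc (k : ℕ) (M G : Set X) (𝓖 : Ch n X → X → Submodule ℂ (Fin n → ℂ)) (φ : Ch n X)
    (W : Set (Fin n → ℂ)) (V : (Fin n → ℂ) → Fin k → Fin n → ℂ) : Prop where
  dom : Dom φ M W
  hol : Hol W V
  li : ∀ y ∈ W, LinearIndependent ℂ (V y)
  sp : ∀ y ∈ W, φ.symm y ∈ G → Submodule.span ℂ (range (V y)) = 𝓖 φ (φ.symm y)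

theorem lc_unique (hMG : M ⊆ closure G) {φ : Ch n X} {W W₂ : Set (Fin n → ℂ)}
    {V V₂ : (Fin n → ℂ) → Fin k → Fin n → ℂ} (h : Lc k M G 𝓖 φ W V) (h₂ : Lc k M G 𝓖 φ W₂ V₂)
    {y : Fin n → ℂ} (hy : y ∈ W) (hy₂ : y ∈ W₂) :
    Submodule.span ℂ (range (V₂ y)) = Submodule.span ℂ (range (V y)) := by
  refine span_of_dense (W := W ∩ W₂) (Z := {y | φ.symm y ∈ G}) (h.dom.1.inter h₂.dom.1)
    (fun i j => (h.hol i j).mono inter_subset_left)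
    (fun i j => (h₂.hol i j).mono inter_subset_right) ⟨hy, hy₂⟩ (h.li y hy) (h₂.li y hy₂)
    (inter_subset_left.trans (dense_coord h.dom hMG)) ?_
  intro z hz hzG
  rw [h.sp z hz.1 hzG, h₂.sp z hz.2 hzG]

/-- frames of `𝓖` on `G` -/
theorem lc_of_frame (hGM : G ⊆ M) {φ : Ch n X} {W : Set (Fin n → ℂ)}
    {e : (Fin n → ℂ) → Fin k → Fin n → ℂ} (hW : Dom φ G W) (he : Hol W e)
    (hf : ∀ y ∈ W, Fr 𝓖 φ (φ.symm y) (e y)) : Lc k M G 𝓖 φ W e :=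
  ⟨⟨hW.1, hW.2.1, fun y hy => hGM (hW.2.2 y hy)⟩, he, fun y hy => (hf y hy).1,
    fun y hy _ => (hf y hy).2⟩

/-- the span is `𝓖` on all of `G` if it is `𝓖` on a dense subset -/
theorem lc_of_dense (hG : IsDist G 𝓖 k) {φ : Ch n X} (hφ : φ ∈ Charts n X)
    {W Z : Set (Fin n → ℂ)} {V : (Fin n → ℂ) → Fin k → Fin n → ℂ} (hW : Dom φ M W)
    (hV : Hol W V) (hli : ∀ y ∈ W, LinearIndependent ℂ (V y)) (hZ : W ⊆ closure Z)
    (hsp : ∀ y ∈ Z, φ.symm y ∈ G ∧ Submodule.span ℂ (range (V y)) = 𝓖 φ (φ.symm y)) :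
    Lc k M G 𝓖 φ W V := by
  refine ⟨hW, hV, hli, fun y hy hyG => ?_⟩
  have hyt : y ∈ φ.target := hW.2.1 hy
  obtain ⟨W₀, e, hW₀, hyW₀, he, hf⟩ := hG.frame φ hφ (φ.symm y) (φ.map_target hyt) hyG
  rw [φ.right_inv hyt] at hyW₀
  rw [← (hf y hyW₀).2]
  refine span_of_dense (W := W ∩ W₀) (Z := Z) (hW.1.inter hW₀.1)
    (fun i j => (he i j).mono inter_subset_right)
    (fun i j => (hV i j).mono inter_subset_left) ⟨hy, hyW₀⟩ (hf y hyW₀).1 (hli y hy)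
    (inter_subset_left.trans hZ) ?_
  intro z hz hzZ
  rw [(hsp z hzZ).2, (hf z hz.2).2]

/-- transport by automorphisms -/
theorem lc_aut [IsManifold 𝓘(ℂ, Fin n → ℂ) ω X] (hCh : S_Chart n X) (hM : ∀ (F : Aut n X), ∀ x ∈ M, F x ∈ M)
    (hG : IsDist G 𝓖 k) (F : Aut n X) {φ ψ : Ch n X} (hφ : φ ∈ Charts n X)
    (hψ : ψ ∈ Charts n X) {W : Set (Fin n → ℂ)} {V : (Fin n → ℂ) → Fin k → Fin n → ℂ}
    (h : Lc k M G 𝓖 φ W V) :
    Lc k M G 𝓖 ψ (Tr F φ ψ W) (fun z i => der F φ ψ (F.symm (ψ.symm z)) (V (cc F φ ψ z) i)) := by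
  obtain ⟨h1, h2, h3⟩ := hCh.2.2.2 F φ hφ ψ hψ W h.dom.1 h.dom.2.1
  have hcc : ∀ z ∈ Tr F φ ψ W, φ.symm (cc F φ ψ z) = F.symm (ψ.symm z) := by
    rintro z ⟨hz1, hz2, hz3⟩
    exact φ.left_inv hz2
  have hF : ∀ x, F (F.symm x) = x := fun x => F.apply_symm_apply x
  have hinj : ∀ z ∈ Tr F φ ψ W, Function.Injective (der F φ ψ (F.symm (ψ.symm z))) := by
    intro z hz
    refine der_inj hCh F hφ hψ hz.2.1 ?_
    rw [hF]
    exact ψ.map_target hz.1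
  refine ⟨⟨h1, fun z hz => hz.1, ?_⟩, h3 k V h.hol, ?_, ?_⟩
  · intro z hz
    have h4 := h.dom.2.2 _ hz.2.2
    rw [hcc z hz] at h4
    have h5 := hM F _ h4
    rwa [hF] at h5
  · intro z hz
    exact (h.li _ hz.2.2).map' (der F φ ψ (F.symm (ψ.symm z)) : (Fin n → ℂ) →ₗ[ℂ] (Fin n → ℂ))
      (LinearMap.ker_eq_bot.2 (hinj z hz))
  · intro z hz hzG
    have h4 : F.symm (ψ.symm z) ∈ G := hG.inv F.symm _ hzG
    have h5 := h.sp _ hz.2.2 (by rw [hcc z hz]; exact h4)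
    rw [hcc z hz] at h5
    have h6 := hG.nat F φ hφ ψ hψ (F.symm (ψ.symm z)) hz.2.1 h4 (by
      rw [hF]; exact ψ.map_target hz.1)
    rw [hF, ← h5, Submodule.map_span, ← Set.range_comp] at h6
    rw [h6]
    rfl

/-- the set where `𝓖` extends -/
def satM (k : ℕ) (M G : Set X) (𝓖 : Ch n X → X → Submodule ℂ (Fin n → ℂ)) : Set X :=
  {x | ∃ φ ∈ Charts n X, x ∈ φ.source ∧ ∃ W V, Lc k M G 𝓖 φ W V ∧ φ x ∈ W}

/-- the extension -/
noncomputable def satF (k : ℕ) (M G : Set X) (𝓖 : Ch n X → X → Submodule ℂ (Fin n → ℂ))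
    (φ : Ch n X) (x : X) : Submodule ℂ (Fin n → ℂ) := by
  classical
  exact if h : ∃ (S : Submodule ℂ (Fin n → ℂ)) (W : Set (Fin n → ℂ))
    (V : (Fin n → ℂ) → Fin k → Fin n → ℂ), Lc k M G 𝓖 φ W V ∧ φ x ∈ W ∧
      Submodule.span ℂ (range (V (φ x))) = S then h.choose else ⊥

theorem satF_eq (hMG : M ⊆ closure G) {φ : Ch n X} {W : Set (Fin n → ℂ)}
    {V : (Fin n → ℂ) → Fin k → Fin n → ℂ} (h : Lc k M G 𝓖 φ W V) {x : X} (hx : φ x ∈ W) :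
    satF k M G 𝓖 φ x = Submodule.span ℂ (range (V (φ x))) := by
  classical
  have hex : ∃ (S : Submodule ℂ (Fin n → ℂ)) (W : Set (Fin n → ℂ))
    (V : (Fin n → ℂ) → Fin k → Fin n → ℂ), Lc k M G 𝓖 φ W V ∧ φ x ∈ W ∧
      Submodule.span ℂ (range (V (φ x))) = S := ⟨_, W, V, h, hx, rfl⟩
  have h1 : satF k M G 𝓖 φ x = hex.choose := by
    unfold satF
    exact dif_pos hex
  obtain ⟨W₂, V₂, h₂, hx₂, hS⟩ := hex.choose_spec
  rw [h1, ← hS]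
  exact lc_unique hMG h h₂ hx hx₂

theorem lc_at [IsManifold 𝓘(ℂ, Fin n → ℂ) ω X] (hCh : S_Chart n X) (hM : ∀ (F : Aut n X), ∀ x ∈ M, F x ∈ M)
    (hG : IsDist G 𝓖 k) (F : Aut n X) {φ ψ : Ch n X} (hφ : φ ∈ Charts n X)
    (hψ : ψ ∈ Charts n X) {x : X} (hx : x ∈ φ.source) (hFx : F x ∈ ψ.source)
    {W : Set (Fin n → ℂ)} {V : (Fin n → ℂ) → Fin k → Fin n → ℂ} (h : Lc k M G 𝓖 φ W V)
    (hxW : φ x ∈ W) :
    Lc k M G 𝓖 ψ (Tr F φ ψ W) (fun z i => der F φ ψ (F.symm (ψ.symm z)) (V (cc F φ ψ z) i)) ∧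
      ψ (F x) ∈ Tr F φ ψ W ∧ (fun i => der F φ ψ (F.symm (ψ.symm (ψ (F x))))
        (V (cc F φ ψ (ψ (F x))) i)) = fun i => der F φ ψ x (V (φ x) i) := by
  have h1 : F.symm (ψ.symm (ψ (F x))) = x := by
    rw [ψ.left_inv hFx]
    exact F.symm_apply_apply x
  have h2 : cc F φ ψ (ψ (F x)) = φ x := by
    unfold cc
    rw [h1]
  refine ⟨lc_aut hCh hM hG F hφ hψ h, ⟨ψ.map_source hFx, ?_, ?_⟩, ?_⟩
  · rw [h1]
    exact hx
  · rw [h2]
    exact hxW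
  · rw [h1, h2]

end sat

section main

variable {n : ℕ} {X : Type} [TopologicalSpace X] [ChartedSpace (Fin n → ℂ) X]
  [IsManifold 𝓘(ℂ, Fin n → ℂ) ω X]

/-- Q6: the saturation of a distribution which is given on a dense open subset -/
theorem sat (hCh : S_Chart n X) : S_Sat n X := by
  intro M G 𝓖 k hMo hM hG hGM hMG
  have hchart : ∀ x : X, chartAt (Fin n → ℂ) x ∈ Charts n X := fun x =>
    IsManifold.chart_mem_maximalAtlas x
  -- in every chart at a point of `M'` there are local data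
  have hat : ∀ (F : Aut n X) (x : X), x ∈ satM k M G 𝓖 → ∀ ψ ∈ Charts n X, F x ∈ ψ.source →
      ∃ W V, Lc k M G 𝓖 ψ W V ∧ ψ (F x) ∈ W := by
    rintro F x ⟨φ, hφ, hx, W, V, h, hxW⟩ ψ hψ hFx
    obtain ⟨h1, h2, _⟩ := lc_at hCh hM hG F hφ hψ hx hFx h hxW
    exact ⟨_, _, h1, h2⟩
  have hat' : ∀ x : X, x ∈ satM k M G 𝓖 → ∀ ψ ∈ Charts n X, x ∈ ψ.source →
      ∃ W V, Lc k M G 𝓖 ψ W V ∧ ψ x ∈ W := fun x hx ψ hψ hxψ => hat idA x hx ψ hψ hxψ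
  have hsubM : satM k M G 𝓖 ⊆ M := by
    rintro x ⟨φ, hφ, hx, W, V, h, hxW⟩
    have h1 := h.dom.2.2 _ hxW
    rwa [φ.left_inv hx] at h1
  have hmem : ∀ (φ : Ch n X), φ ∈ Charts n X → ∀ W V, Lc k M G 𝓖 φ W V → ∀ y ∈ W,
      φ.symm y ∈ satM k M G 𝓖 := by
    intro φ hφ W V h y hy
    have hyt := h.dom.2.1 hy
    exact ⟨φ, hφ, φ.map_target hyt, W, V, h, by rw [φ.right_inv hyt]; exact hy⟩
  have hfr : ∀ (φ : Ch n X), φ ∈ Charts n X → ∀ W V, Lc k M G 𝓖 φ W V → ∀ y ∈ W,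
      Fr (satF k M G 𝓖) φ (φ.symm y) (V y) := by
    intro φ hφ W V h y hy
    have hyt := h.dom.2.1 hy
    refine ⟨h.li y hy, ?_⟩
    have h1 := satF_eq hMG h (x := φ.symm y) (by rw [φ.right_inv hyt]; exact hy)
    rw [φ.right_inv hyt] at h1
    exact h1.symm
  refine ⟨satM k M G 𝓖, satF k M G 𝓖, ⟨?_, ?_, ?_, ?_⟩, ?_, hsubM, ?_, ?_⟩
  · rw [isOpen_iff_mem_nhds]
    rintro x ⟨φ, hφ, hx, W, V, h, hxW⟩
    have h1 : IsOpen (φ.source ∩ φ ⁻¹' W) := φ.isOpen_inter_preimage h.dom.1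
    refine Filter.mem_of_superset (h1.mem_nhds ⟨hx, hxW⟩) ?_
    rintro x' ⟨hx', hxW'⟩
    exact ⟨φ, hφ, hx', W, V, h, hxW'⟩
  · intro φ hφ x hx hxM'
    obtain ⟨W, V, h, hxW⟩ := hat' x hxM' φ hφ hx
    exact ⟨W, V, ⟨h.dom.1, h.dom.2.1, hmem φ hφ W V h⟩, hxW, h.hol, hfr φ hφ W V h⟩
  · intro F x hx
    have h1 : F x ∈ (chartAt (Fin n → ℂ) (F x)).source := mem_chart_source _ _
    obtain ⟨W, V, h, hxW⟩ := hat F x hx _ (hchart (F x)) h1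
    exact ⟨_, hchart (F x), h1, W, V, h, hxW⟩
  · intro F φ hφ ψ hψ x hx hxM' hFx
    obtain ⟨W, V, h, hxW⟩ := hat' x hxM' φ hφ hx
    obtain ⟨h1, h2, h3⟩ := lc_at hCh hM hG F hφ hψ hx hFx h hxW
    rw [satF_eq hMG h hxW, satF_eq hMG h1 h2, h3, Submodule.map_span, ← Set.range_comp]
    rfl
  · intro x hx
    have h1 : x ∈ (chartAt (Fin n → ℂ) x).source := mem_chart_source _ _
    obtain ⟨W, e, hW, hxW, he, hf⟩ := hG.frame _ (hchart x) x h1 hx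
    exact ⟨_, hchart x, h1, W, e, lc_of_frame hGM hW he hf, hxW⟩
  · intro φ hφ x hx hxG
    obtain ⟨W, e, hW, hxW, he, hf⟩ := hG.frame φ hφ x hx hxG
    rw [satF_eq hMG (lc_of_frame hGM hW he hf) hxW, (hf _ hxW).2, φ.left_inv hx]
  · intro φ hφ x hx W Z V hW hxW hV hli hZ _ hsp
    have h := lc_of_dense hG hφ hW hV hli hZ hsp
    exact ⟨⟨φ, hφ, hx, W, V, h, hxW⟩, satF_eq hMG h hxW⟩

end main

end Pool.Agent.Helper86.CX
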