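import Pool.Agent.Helper86.CX.Cramer

/-! Package Q4 (sections extend over removable sets). -/

set_option autoImplicit false
set_option linter.unusedSectionVars false

open Metric Set Topology
open scoped Manifold ContDiff

namespace Pool.Agent.Helper86.CX

open Pool.Agent.Helper91.CX

section alg

variable {r m : ℕ}

theorem mv_mv (A B : Matrix (Fin r) (Fin r) ℂ) (e : Fin r → Fin m → ℂ) :
    mv A (mv B e) = mv (A * B) e := by
  funext i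
  simp only [mv, Matrix.mul_apply, Finset.smul_sum, smul_smul, Finset.sum_smul]
  exact Finset.sum_comm

theorem mv_one (e : Fin r → Fin m → ℂ) : mv 1 e = e := by
  funext i
  simp [mv, Matrix.one_apply]

theorem mv_inj {A B : Matrix (Fin r) (Fin r) ℂ} {e : Fin r → Fin m → ℂ}
    (he : LinearIndependent ℂ e) (h : mv A e = mv B e) : A = B := by
  ext i j
  have h1 := congrFun h i
  have h2 := Fintype.linearIndependent_iff.1 he (fun j => A i j - B i j) (by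
    simp only [sub_smul, Finset.sum_sub_distrib]
    exact sub_eq_zero.2 h1) j
  exact sub_eq_zero.1 h2

theorem sum_mv (v : Fin r → ℂ) (C : Matrix (Fin r) (Fin r) ℂ) (e : Fin r → Fin m → ℂ) :
    ∑ i, v i • mv C e i = ∑ j, (Matrix.vecMul v C) j • e j := by
  simp only [mv, Finset.smul_sum, smul_smul, Matrix.vecMul, dotProduct, Finset.sum_smul]
  exact Finset.sum_comm

theorem det_of_mv {C : Matrix (Fin r) (Fin r) ℂ} {e : Fin r → Fin m → ℂ}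
    (h : LinearIndependent ℂ (mv C e)) : C.det ≠ 0 := by
  intro h0
  obtain ⟨v, hv, hvC⟩ := Matrix.exists_vecMul_eq_zero_iff.2 h0
  apply hv
  funext i
  refine Fintype.linearIndependent_iff.1 h v ?_ i
  rw [sum_mv, hvC]
  simp

theorem li_mv {C : Matrix (Fin r) (Fin r) ℂ} {e : Fin r → Fin m → ℂ}
    (he : LinearIndependent ℂ e) (hC : C.det ≠ 0) : LinearIndependent ℂ (mv C e) := by
  refine Fintype.linearIndependent_iff.2 fun v hv => ?_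
  rw [sum_mv] at hv
  have h1 : Matrix.vecMul v C = 0 := funext fun j => Fintype.linearIndependent_iff.1 he _ hv j
  have h2 : Matrix.vecMul (Matrix.vecMul v C) C⁻¹ = v := by
    rw [Matrix.vecMul_vecMul, Matrix.mul_nonsing_inv _ (isUnit_iff_ne_zero.2 hC),
      Matrix.vecMul_one]
  rw [h1, Matrix.zero_vecMul] at h2
  intro i
  rw [← h2]
  rfl

theorem span_mv {C : Matrix (Fin r) (Fin r) ℂ} (hC : C.det ≠ 0) (e : Fin r → Fin m → ℂ) :
    Submodule.span ℂ (range (mv C e)) = Submodule.span ℂ (range e) := by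
  have key : ∀ (C : Matrix (Fin r) (Fin r) ℂ) (e : Fin r → Fin m → ℂ),
      Submodule.span ℂ (range (mv C e)) ≤ Submodule.span ℂ (range e) := by
    intro C e
    rw [Submodule.span_le]
    rintro _ ⟨i, rfl⟩
    exact Submodule.sum_mem _ fun j _ => Submodule.smul_mem _ _ (Submodule.subset_span ⟨j, rfl⟩)
  refine le_antisymm (key _ _) ?_
  have h1 := key C⁻¹ (mv C e)
  rwa [mv_mv, Matrix.nonsing_inv_mul _ (isUnit_iff_ne_zero.2 hC), mv_one] at h1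

end alg

section frames

variable {n : ℕ} {X : Type} [TopologicalSpace X] {r : ℕ}
  {𝓕 : Ch n X → X → Submodule ℂ (Fin n → ℂ)}

theorem fr_mv {φ : Ch n X} {x : X} {e : Fin r → Fin n → ℂ} (h : Fr 𝓕 φ x e)
    {C : Matrix (Fin r) (Fin r) ℂ} (hC : C.det ≠ 0) : Fr 𝓕 φ x (mv C e) :=
  ⟨li_mv h.1 hC, (span_mv hC e).trans h.2⟩

theorem fr_exists {φ : Ch n X} {x : X} {e e' : Fin r → Fin n → ℂ} (h : Fr 𝓕 φ x e)
    (h' : Fr 𝓕 φ x e') : ∃ C : Matrix (Fin r) (Fin r) ℂ, C.det ≠ 0 ∧ e' = mv C e := by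
  have h1 : ∀ i, ∃ c : Fin r → ℂ, ∑ j, c j • e j = e' i := fun i =>
    (Submodule.mem_span_range_iff_exists_fun ℂ).1 (by
      rw [h.2, ← h'.2]
      exact Submodule.subset_span ⟨i, rfl⟩)
  choose c hc using h1
  have h2 : e' = mv (Matrix.of c) e := funext fun i => (hc i).symm
  refine ⟨Matrix.of c, ?_, h2⟩
  have h3 := h'.1
  rw [h2] at h3
  exact det_of_mv h3

/-- the change of holomorphic frames -/
theorem frame_change {φ : Ch n X} {W : Set (Fin n → ℂ)} (hW : IsOpen W)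
    {e e' : (Fin n → ℂ) → Fin r → Fin n → ℂ} (he : Hol W e) (he' : Hol W e')
    (hf : ∀ y ∈ W, Fr 𝓕 φ (φ.symm y) (e y)) (hf' : ∀ y ∈ W, Fr 𝓕 φ (φ.symm y) (e' y))
    {y₀ : Fin n → ℂ} (hy₀ : y₀ ∈ W) :
    ∃ (W' : Set (Fin n → ℂ)) (C : (Fin n → ℂ) → Matrix (Fin r) (Fin r) ℂ), IsOpen W' ∧ y₀ ∈ W' ∧
      W' ⊆ W ∧ (∀ i j, DifferentiableOn ℂ (fun y => C y i j) W') ∧
      ∀ y ∈ W', (C y).det ≠ 0 ∧ e' y = mv (C y) (e y) := by
  have h1 : ∀ i : Fin r, ∃ (W' : Set (Fin n → ℂ)) (c : (Fin n → ℂ) → Fin r → ℂ), IsOpen W' ∧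
      y₀ ∈ W' ∧ W' ⊆ W ∧ (∀ i, DifferentiableOn ℂ (fun y => c y i) W') ∧
      (∀ y ∈ W', LinearIndependent ℂ (e y)) ∧ ∀ y ∈ W', e' y i = ∑ j, c y j • e y j := by
    intro i
    refine cramer n n r W W y₀ e (fun y => e' y i) hW hy₀ he ?_ (hf y₀ hy₀).1 subset_closure
      (le_refl _) ?_
    · exact differentiableOn_pi.2 fun j => he' i j
    · intro y hy
      rw [(hf y hy).2, ← (hf' y hy).2]
      exact Submodule.subset_span ⟨i, rfl⟩
  choose W' c hW' hyW' hW'W hc hli hs using h1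
  refine ⟨W ∩ ⋂ i, W' i, fun y => Matrix.of fun i j => c i y j,
    hW.inter (isOpen_iInter_of_finite hW'), ⟨hy₀, mem_iInter.2 hyW'⟩, inter_subset_left, ?_, ?_⟩
  · intro i j
    exact (hc i j).mono fun y hy => mem_iInter.1 hy.2 i
  · rintro y ⟨hy, hyi⟩
    have h2 : e' y = mv (Matrix.of fun i j => c i y j) (e y) :=
      funext fun i => hs i y (mem_iInter.1 hyi i)
    refine ⟨?_, h2⟩
    have h3 := (hf' y hy).1
    rw [h2] at h3
    exact det_of_mv h3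

end frames

section ext

variable {n : ℕ} {X : Type} [TopologicalSpace X] [ChartedSpace (Fin n → ℂ) X]
  {r : ℕ} {L : Law r} {M M' : Set X} {𝓕 : Ch n X → X → Submodule ℂ (Fin n → ℂ)}
  {s : Ch n X → X → (Fin r → Fin n → ℂ) → L.Ix → ℂ}

/-- the coordinates of a dense set are dense -/
theorem dense_coord {φ : Ch n X} {W : Set (Fin n → ℂ)} (hW : Dom φ M W)
    (hM : M ⊆ closure M') : W ⊆ closure {y | φ.symm y ∈ M'} := by
  intro y hy
  refine mem_closure_iff.2 fun O hO hyO => ?_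
  have h1 : IsOpen (φ.source ∩ φ ⁻¹' O) := φ.isOpen_inter_preimage hO
  have h2 : φ.symm y ∈ φ.source ∩ φ ⁻¹' O :=
    ⟨φ.map_target (hW.2.1 hy), by
      show φ (φ.symm y) ∈ O
      rw [φ.right_inv (hW.2.1 hy)]
      exact hyO⟩
  obtain ⟨x, hx, hxM⟩ := mem_closure_iff.1 (hM (hW.2.2 y hy)) _ h1 h2
  refine ⟨φ x, hx.2, ?_⟩
  show φ.symm (φ x) ∈ M'
  rw [φ.left_inv hx.1]
  exact hxM

/-- local data of the extension of a section -/
structure Ld (L : Law r) (M M' : Set X) (𝓕 : Ch n X → X → Submodule ℂ (Fin n → ℂ))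
    (s : Ch n X → X → (Fin r → Fin n → ℂ) → L.Ix → ℂ) (φ : Ch n X) (W : Set (Fin n → ℂ))
    (e : (Fin n → ℂ) → Fin r → Fin n → ℂ) (g : (Fin n → ℂ) → L.Ix → ℂ) : Prop where
  dom : Dom φ M W
  hole : Hol W e
  fr : ∀ y ∈ W, Fr 𝓕 φ (φ.symm y) (e y)
  holg : ∀ I, DifferentiableOn ℂ (fun y => g y I) W
  eq : ∀ y ∈ W, φ.symm y ∈ M' → g y = s φ (φ.symm y) (e y)

theorem Ld.mono {φ : Ch n X} {W W' : Set (Fin n → ℂ)} {e : (Fin n → ℂ) → Fin r → Fin n → ℂ}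
    {g : (Fin n → ℂ) → L.Ix → ℂ} (h : Ld L M M' 𝓕 s φ W e g) (hW' : IsOpen W') (hs : W' ⊆ W) :
    Ld L M M' 𝓕 s φ W' e g :=
  ⟨⟨hW', hs.trans h.dom.2.1, fun y hy => h.dom.2.2 y (hs hy)⟩, fun i j => (h.hole i j).mono hs,
    fun y hy => h.fr y (hs hy), fun I => (h.holg I).mono hs, fun y hy => h.eq y (hs hy)⟩

/-- local extensions exist -/
theorem exists_ld (hM' : IsOpen M') (hR : Rem n M' M) (hs : IsSec L M' 𝓕 s) {φ : Ch n X}
    (hφ : φ ∈ Charts n X) {W : Set (Fin n → ℂ)} {e : (Fin n → ℂ) → Fin r → Fin n → ℂ}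
    (hW : Dom φ M W) (he : Hol W e) (hf : ∀ y ∈ W, Fr 𝓕 φ (φ.symm y) (e y))
    {y₀ : Fin n → ℂ} (hy₀ : y₀ ∈ W) :
    ∃ (W' : Set (Fin n → ℂ)) (g : (Fin n → ℂ) → L.Ix → ℂ), W' ⊆ W ∧ y₀ ∈ W' ∧
      Ld L M M' 𝓕 s φ W' e g := by
  have hx : φ.symm y₀ ∈ φ.source := φ.map_target (hW.2.1 hy₀)
  have hφx : φ (φ.symm y₀) = y₀ := φ.right_inv (hW.2.1 hy₀)
  have hD : Dom φ M' (W ∩ φ.symm ⁻¹' M') := by
    refine ⟨?_, inter_subset_left.trans hW.2.1, fun y hy => hy.2⟩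
    have h1 : IsOpen (φ.target ∩ φ.symm ⁻¹' M') := φ.isOpen_inter_preimage_symm hM'
    have h2 : W ∩ φ.symm ⁻¹' M' = W ∩ (φ.target ∩ φ.symm ⁻¹' M') := by
      ext y
      exact ⟨fun h => ⟨h.1, hW.2.1 h.1, h.2⟩, fun h => ⟨h.1, h.2.2⟩⟩
    rw [h2]
    exact hW.1.inter h1
  have h1 : ∀ I : L.Ix, ∃ (W' : Set (Fin n → ℂ)) (g' : (Fin n → ℂ) → ℂ), IsOpen W' ∧ W' ⊆ W ∧
      φ (φ.symm y₀) ∈ W' ∧ DifferentiableOn ℂ g' W' ∧
      ∀ y ∈ W', φ.symm y ∈ M' → g' y = s φ (φ.symm y) (e y) I := by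
    intro I
    refine hR φ hφ (φ.symm y₀) hx (hW.2.2 y₀ hy₀) W hW (by rw [hφx]; exact hy₀) _ ?_
    exact hs.hol φ hφ _ e hD (fun i j => (he i j).mono inter_subset_left)
      (fun y hy => hf y hy.1) I
  choose W' g' hW' hW'W hy' hg' hg'' using h1
  have hop : IsOpen (W ∩ ⋂ I, W' I) := hW.1.inter (isOpen_iInter_of_finite hW')
  refine ⟨W ∩ ⋂ I, W' I, fun y I => g' I y, inter_subset_left, ⟨hy₀, mem_iInter.2 fun I => by
    have := hy' I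
    rwa [hφx] at this⟩, ⟨⟨hop, inter_subset_left.trans hW.2.1, fun y hy => hW.2.2 y hy.1⟩,
    fun i j => (he i j).mono inter_subset_left, fun y hy => hf y hy.1, ?_, ?_⟩⟩
  · intro I
    exact (hg' I).mono fun y hy => mem_iInter.1 hy.2 I
  · intro y hy hyM
    funext I
    exact hg'' I y (mem_iInter.1 hy.2 I) hyM

/-- comparison of two local extensions -/
theorem ld_compare (hM : M ⊆ closure M') (hs : IsSec L M' 𝓕 s) {φ : Ch n X}
    (hφ : φ ∈ Charts n X) {W W₂ : Set (Fin n → ℂ)} {e e₂ : (Fin n → ℂ) → Fin r → Fin n → ℂ}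
    {g g₂ : (Fin n → ℂ) → L.Ix → ℂ} (h : Ld L M M' 𝓕 s φ W e g) (h₂ : Ld L M M' 𝓕 s φ W₂ e₂ g₂)
    {y₀ : Fin n → ℂ} (hy : y₀ ∈ W) (hy₂ : y₀ ∈ W₂) {C : Matrix (Fin r) (Fin r) ℂ}
    (hC : e₂ y₀ = mv C (e y₀)) (J : L.Ix) : g₂ y₀ J = ∑ I, L.R C J I * g y₀ I := by
  obtain ⟨W', D, hW', hyW', hW'W, hD, hDe⟩ := frame_change (h.dom.1.inter h₂.dom.1)
    (fun i j => (h.hole i j).mono inter_subset_left)
    (fun i j => (h₂.hole i j).mono inter_subset_right)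
    (fun y hy => h.fr y hy.1) (fun y hy => h₂.fr y hy.2) ⟨hy, hy₂⟩
  have hDC : D y₀ = C := by
    refine mv_inj (h.fr y₀ hy).1 ?_
    rw [← (hDe y₀ hyW').2, hC]
  have hdom : Dom φ M W' := ⟨hW', fun y hy => h.dom.2.1 (hW'W hy).1,
    fun y hy => h.dom.2.2 y (hW'W hy).1⟩
  rw [← hDC]
  revert hyW'
  have key : ∀ y ∈ W', g₂ y J = ∑ I, L.R (D y) J I * g y I := by
    refine eq_of_dense (Z := {y | φ.symm y ∈ M'}) hW' ?_ ?_ (dense_coord hdom hM) ?_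
    · exact ((h₂.holg J).mono fun y hy => (hW'W hy).2).continuousOn
    · refine DifferentiableOn.continuousOn (𝕜 := ℂ) ?_
      exact DifferentiableOn.fun_sum fun I _ => (L.hol W' D hD J I).mul
        ((h.holg I).mono fun y hy => (hW'W hy).1)
    · intro y hyW hyM
      have hyM' : φ.symm y ∈ M' := hyM
      have hyt : y ∈ φ.target := hdom.2.1 hyW
      rw [h₂.eq y (hW'W hyW).2 hyM', h.eq y (hW'W hyW).1 hyM', (hDe y hyW).2]
      exact hs.law φ hφ _ (φ.map_target hyt) hyM' _ (h.fr y (hW'W hyW).1) _ (hDe y hyW).1 J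
  exact fun hyW' => key y₀ hyW'

/-- the extension -/
noncomputable def extS (L : Law r) (M M' : Set X) (𝓕 : Ch n X → X → Submodule ℂ (Fin n → ℂ))
    (s : Ch n X → X → (Fin r → Fin n → ℂ) → L.Ix → ℂ) (φ : Ch n X) (x : X)
    (e : Fin r → Fin n → ℂ) : L.Ix → ℂ := by
  classical
  exact if h : ∃ (v : L.Ix → ℂ) (W : Set (Fin n → ℂ)) (e' : (Fin n → ℂ) → Fin r → Fin n → ℂ)
    (g : (Fin n → ℂ) → L.Ix → ℂ), Ld L M M' 𝓕 s φ W e' g ∧ φ x ∈ W ∧ e' (φ x) = e ∧ g (φ x) = v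
    then h.choose else 0

theorem extS_eq (hM : M ⊆ closure M') (hs : IsSec L M' 𝓕 s) {φ : Ch n X}
    (hφ : φ ∈ Charts n X) {W : Set (Fin n → ℂ)} {e : (Fin n → ℂ) → Fin r → Fin n → ℂ}
    {g : (Fin n → ℂ) → L.Ix → ℂ} (h : Ld L M M' 𝓕 s φ W e g) {x : X} (hx : φ x ∈ W) :
    extS L M M' 𝓕 s φ x (e (φ x)) = g (φ x) := by
  classical
  have hex : ∃ (v : L.Ix → ℂ) (W : Set (Fin n → ℂ)) (e' : (Fin n → ℂ) → Fin r → Fin n → ℂ)
    (g : (Fin n → ℂ) → L.Ix → ℂ), Ld L M M' 𝓕 s φ W e' g ∧ φ x ∈ W ∧ e' (φ x) = e (φ x) ∧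
      g (φ x) = v := ⟨_, W, e, g, h, hx, rfl, rfl⟩
  have h1 : extS L M M' 𝓕 s φ x (e (φ x)) = hex.choose := by
    unfold extS
    exact dif_pos hex
  rw [h1]
  obtain ⟨W₂, e₂, g₂, h₂, hx₂, he₂, hg₂⟩ := hex.choose_spec
  rw [← hg₂]
  funext J
  rw [ld_compare hM hs hφ h h₂ hx hx₂ (C := 1) (by rw [mv_one, he₂]) J,
    ← ld_compare hM hs hφ h h hx hx (C := 1) (by rw [mv_one]) J]

/-- local data exist at every frame -/
theorem exists_at (hd : IsDist M 𝓕 r) (hM' : IsOpen M') (hR : Rem n M' M)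
    (hs : IsSec L M' 𝓕 s) {φ : Ch n X} (hφ : φ ∈ Charts n X) {x : X} (hx : x ∈ φ.source)
    (hxM : x ∈ M) {e : Fin r → Fin n → ℂ} (he : Fr 𝓕 φ x e) :
    ∃ (W : Set (Fin n → ℂ)) (e' : (Fin n → ℂ) → Fin r → Fin n → ℂ)
      (g : (Fin n → ℂ) → L.Ix → ℂ), Ld L M M' 𝓕 s φ W e' g ∧ φ x ∈ W ∧ e' (φ x) = e := by
  obtain ⟨W, e₀, hW, hxW, he₀, hf₀⟩ := hd.frame φ hφ x hx hxM
  have h1 := hf₀ (φ x) hxW
  rw [φ.left_inv hx] at h1
  obtain ⟨C, hC, hCe⟩ := fr_exists h1 he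
  obtain ⟨W', g, hW'W, hxW', hLd⟩ := exists_ld (e := fun y => mv C (e₀ y)) hM' hR hs hφ hW
    (fun i j => by
      have : ∀ y, mv C (e₀ y) i j = ∑ a, C i a * e₀ y a j := fun y => by
        simp [mv, Finset.sum_apply]
      simp only [this]
      exact DifferentiableOn.fun_sum fun a _ => (he₀ a j).const_mul _)
    (fun y hy => fr_mv (hf₀ y hy) hC) hxW
  exact ⟨W', _, g, hLd, hxW', hCe.symm⟩

end ext

section main

variable {n : ℕ} {X : Type} [TopologicalSpace X] [ChartedSpace (Fin n → ℂ) X]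
  [IsManifold 𝓘(ℂ, Fin n → ℂ) ω X]

/-- the identity -/
noncomputable def idA : Aut n X := Diffeomorph.refl 𝓘(ℂ, Fin n → ℂ) X ω

theorem coe_idA : ((idA : Aut n X) : X → X) = id := rfl

theorem idA_symm (x : X) : (idA : Aut n X).symm x = x := rfl

theorem der_inj (hCh : S_Chart n X) (F : Aut n X) {φ ψ : Ch n X} (hφ : φ ∈ Charts n X)
    (hψ : ψ ∈ Charts n X) {x : X} (hx : x ∈ φ.source) (hFx : F x ∈ ψ.source) :
    Function.Injective (der F φ ψ x) := fun v w h => by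
  have h1 := (hCh.2.2.1 F φ hφ ψ hψ x hx hFx v).1
  have h2 := (hCh.2.2.1 F φ hφ ψ hψ x hx hFx w).1
  rw [← h1, ← h2, h]

theorem fr_der {r : ℕ} {M : Set X} {𝓕 : Ch n X → X → Submodule ℂ (Fin n → ℂ)}
    (hCh : S_Chart n X) (hd : IsDist M 𝓕 r) (F : Aut n X) {φ ψ : Ch n X}
    (hφ : φ ∈ Charts n X) (hψ : ψ ∈ Charts n X) {x : X} (hx : x ∈ φ.source) (hxM : x ∈ M)
    (hFx : F x ∈ ψ.source) {g : Fin r → Fin n → ℂ} (hg : Fr 𝓕 φ x g) :
    Fr 𝓕 ψ (F x) (fun i => der F φ ψ x (g i)) := by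
  refine ⟨hg.1.map' (der F φ ψ x : (Fin n → ℂ) →ₗ[ℂ] (Fin n → ℂ))
    (LinearMap.ker_eq_bot.2 (der_inj hCh F hφ hψ hx hFx)), ?_⟩
  rw [hd.nat F φ hφ ψ hψ x hx hxM hFx, ← hg.2, Submodule.map_span, ← Set.range_comp]
  rfl

/-- transport of the local data to another chart -/
theorem ld_chart {r : ℕ} {L : Law r} {M M' : Set X} {𝓕 : Ch n X → X → Submodule ℂ (Fin n → ℂ)}
    {s : Ch n X → X → (Fin r → Fin n → ℂ) → L.Ix → ℂ} (hCh : S_Chart n X)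
    (hd : IsDist M 𝓕 r) (hs : IsSec L M' 𝓕 s) {φ ψ : Ch n X}
    (hφ : φ ∈ Charts n X) (hψ : ψ ∈ Charts n X) {W : Set (Fin n → ℂ)}
    {e : (Fin n → ℂ) → Fin r → Fin n → ℂ} {g : (Fin n → ℂ) → L.Ix → ℂ}
    (h : Ld L M M' 𝓕 s φ W e g) :
    Ld L M M' 𝓕 s ψ (Tr (idA : Aut n X) φ ψ W)
      (fun z i => der (idA : Aut n X) φ ψ ((idA : Aut n X).symm (ψ.symm z))
        (e (cc (idA : Aut n X) φ ψ z) i)) (fun z => g (cc (idA : Aut n X) φ ψ z)) := by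
  obtain ⟨h1, h2, h3⟩ := hCh.2.2.2 (idA : Aut n X) φ hφ ψ hψ W h.dom.1 h.dom.2.1
  have hcc : ∀ z ∈ Tr (idA : Aut n X) φ ψ W, ψ.symm z ∈ φ.source ∧
      φ.symm (cc (idA : Aut n X) φ ψ z) = ψ.symm z := by
    rintro z ⟨hz1, hz2, hz3⟩
    refine ⟨hz2, ?_⟩
    show φ.symm (φ (ψ.symm z)) = ψ.symm z
    exact φ.left_inv hz2
  have hzM : ∀ z ∈ Tr (idA : Aut n X) φ ψ W, ψ.symm z ∈ M := by
    intro z hz
    rw [← (hcc z hz).2]
    exact h.dom.2.2 _ hz.2.2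
  have hfr : ∀ z ∈ Tr (idA : Aut n X) φ ψ W,
      Fr 𝓕 φ (ψ.symm z) (e (cc (idA : Aut n X) φ ψ z)) := by
    intro z hz
    have h4 := h.fr _ hz.2.2
    rwa [(hcc z hz).2] at h4
  refine ⟨⟨h1, fun z hz => hz.1, hzM⟩, h3 r e h.hole, ?_, fun I => h2 _ (h.holg I), ?_⟩
  · intro z hz
    exact fr_der hCh hd (idA : Aut n X) hφ hψ (hcc z hz).1 (hzM z hz) (ψ.map_target hz.1)
      (hfr z hz)
  · intro z hz hzM'
    have h5 := h.eq (cc (idA : Aut n X) φ ψ z) hz.2.2 (by rw [(hcc z hz).2]; exact hzM')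
    rw [(hcc z hz).2] at h5
    show g (cc (idA : Aut n X) φ ψ z) = _
    rw [h5]
    exact (hs.nat φ hφ ψ hψ (ψ.symm z) (hcc z hz).1 (ψ.map_target hz.1) hzM' _ (hfr z hz)).symm

/-- Q4: sections extend over removable sets -/
theorem secExt (hCh : S_Chart n X) : S_SecExt n X := by
  intro M M' 𝓕 r L s hd hM' hM'M hM hR hs
  refine ⟨extS L M M' 𝓕 s, ⟨?_, ?_, ?_⟩, ?_⟩
  · intro φ hφ x hx hxM e he C hC J
    obtain ⟨W, e', g, h, hxW, hxe⟩ := exists_at hd hM' hR hs hφ hx hxM he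
    obtain ⟨W₂, e₂, g₂, h₂, hxW₂, hxe₂⟩ := exists_at hd hM' hR hs hφ hx hxM (fr_mv he hC)
    rw [← hxe₂, extS_eq hM hs hφ h₂ hxW₂, ← hxe, extS_eq hM hs hφ h hxW]
    exact ld_compare hM hs hφ h h₂ hxW hxW₂ (by rw [hxe₂, hxe]) J
  · intro φ hφ ψ hψ x hxφ hxψ hxM e he
    obtain ⟨W, e', g, h, hxW, hxe⟩ := exists_at hd hM' hR hs hφ hxφ hxM he
    have h' := ld_chart hCh hd hs hφ hψ h
    have hcc : cc (idA : Aut n X) φ ψ (ψ x) = φ x := by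
      show φ (ψ.symm (ψ x)) = φ x
      rw [ψ.left_inv hxψ]
    have hx' : ψ x ∈ Tr (idA : Aut n X) φ ψ W := by
      refine ⟨ψ.map_source hxψ, ?_, ?_⟩
      · show ψ.symm (ψ x) ∈ φ.source
        rw [ψ.left_inv hxψ]
        exact hxφ
      · rw [hcc]
        exact hxW
    have h4 := extS_eq hM hs hψ h' hx'
    have h5 := extS_eq hM hs hφ h hxW
    rw [← hxe, h5]
    simp only [hcc] at h4
    rw [← h4]
    congr 1
    funext i
    show der id φ ψ x (e' (φ x) i) = der id φ ψ (ψ.symm (ψ x)) (e' (φ x) i)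
    rw [ψ.left_inv hxψ]
  · intro φ hφ W e hW he hf I y₀ hy₀
    obtain ⟨W', g, hW'W, hy₀', h⟩ := exists_ld hM' hR hs hφ hW he hf hy₀
    have h1 : ∀ y ∈ W', extS L M M' 𝓕 s φ (φ.symm y) (e y) I = g y I := by
      intro y hy
      have h2 : φ (φ.symm y) = y := φ.right_inv (h.dom.2.1 hy)
      have h3 := extS_eq hM hs hφ h (x := φ.symm y) (by rw [h2]; exact hy)
      rw [h2] at h3
      rw [h3]
    have h4 : DifferentiableAt ℂ (fun y => extS L M M' 𝓕 s φ (φ.symm y) (e y) I) y₀ := by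
      have h5 : DifferentiableAt ℂ (fun y => g y I) y₀ :=
        (h.holg I).differentiableAt (h.dom.1.mem_nhds hy₀')
      refine h5.congr_of_eventuallyEq ?_
      filter_upwards [h.dom.1.mem_nhds hy₀'] with y hy
      exact h1 y hy
    exact h4.differentiableWithinAt
  · intro φ hφ x hx hxM' e he
    obtain ⟨W, e', g, h, hxW, hxe⟩ := exists_at hd hM' hR hs hφ hx (hM'M hxM') he
    have h5 := extS_eq hM hs hφ h hxW
    rw [← hxe, h5, h.eq (φ x) hxW (by rw [φ.left_inv hx]; exact hxM'), φ.left_inv hx]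

end main

end Pool.Agent.Helper86.CX
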